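import Pool.Agent.Helper10.CR.Goals2

/-!
# Project CR, packet LAII: linear algebra for case II
-/

universe u

namespace Pool.Agent.Helper77.CR

open Pool.Agent.Helper10.CR
open Pool.Agent.Helper10.Width Pool.Agent.Helper72.Width Pool.Agent.Helper78.SD
open scoped QuadraticAlgebra

/-! ### Tensors -/

theorem mem_tens {K : Type u} [CommRing K] {M : Type u} [AddCommGroup M] [Module K M]
    {ι : Type} {E : Submodule K (ι → K)} {n : ℕ} {g : Fin n → ι → K}
    (hg : Submodule.span K (Set.range g) = E) {w : ι → M} :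
    w ∈ tens (M := M) E ↔ ∃ z : Fin n → M, w = fun i => ∑ j, g j i • z j := by
  constructor
  · intro h
    unfold tens at h
    induction h using Submodule.span_induction with
    | mem w hw =>
      obtain ⟨ε, hε, m, rfl⟩ := hw
      rw [← hg, Submodule.mem_span_range_iff_exists_fun] at hε
      obtain ⟨t, rfl⟩ := hε
      refine ⟨fun j => t j • m, ?_⟩
      funext i
      rw [Finset.sum_apply, Finset.sum_smul]
      refine Finset.sum_congr rfl fun j _ => ?_
      rw [Pi.smul_apply, smul_eq_mul, smul_smul, mul_comm]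
    | zero => exact ⟨0, by ext i; simp⟩
    | add w w' _ _ h h' =>
      obtain ⟨z, rfl⟩ := h
      obtain ⟨z', rfl⟩ := h'
      refine ⟨z + z', ?_⟩
      funext i
      simp only [Pi.add_apply, smul_add, Finset.sum_add_distrib]
    | smul t w _ h =>
      obtain ⟨z, rfl⟩ := h
      refine ⟨t • z, ?_⟩
      funext i
      simp only [Pi.smul_apply, Finset.smul_sum]
      exact Finset.sum_congr rfl fun j _ => smul_comm _ _ _
  · rintro ⟨z, rfl⟩
    have e : (fun i => ∑ j, g j i • z j) = ∑ j, (fun i => g j i • z j) := by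
      funext i
      rw [Finset.sum_apply]
    rw [e]
    refine Submodule.sum_mem _ fun j _ => Submodule.subset_span ⟨g j, ?_, z j, rfl⟩
    rw [← hg]
    exact Submodule.subset_span ⟨j, rfl⟩

theorem smul_mem_tens {K : Type u} [CommRing K] {M : Type u} [AddCommGroup M] [Module K M]
    {ι : Type} {E : Submodule K (ι → K)} {ε : ι → K} (h : ε ∈ E) (m : M) :
    (fun i => ε i • m) ∈ tens (M := M) E :=
  Submodule.subset_span ⟨ε, h, m, rfl⟩

/-! ### Coordinates -/

section coords

variable {k : Type u} [Field k] {q : ℕ} {I : Type} [Fintype I] [DecidableEq I]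
  (b : Module.Basis I k (Fin q → k))

/-- The coordinates of a family of vectors. -/
noncomputable def Co {W : Type u} [AddCommGroup W] [Module k W] (w : Fin q → W) (i : I) : W :=
  ∑ c, b.repr (Pi.single c 1) i • w c

theorem Co_map {W W' : Type u} [AddCommGroup W] [Module k W] [AddCommGroup W'] [Module k W']
    (T : W →ₗ[k] W') (w : Fin q → W) (i : I) : T (Co b w i) = Co b (fun c => T (w c)) i := by
  unfold Co
  rw [map_sum]
  exact Finset.sum_congr rfl fun c _ => map_smul _ _ _

theorem recomb {W : Type u} [AddCommGroup W] [Module k W] (w : Fin q → W) (c : Fin q) :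
    w c = ∑ i, b i c • Co b w i := by
  have h1 : ∀ c', ∑ i, b i c * b.repr (Pi.single c' 1) i = if c' = c then 1 else 0 := by
    intro c'
    have h2 := congrFun (b.sum_repr (Pi.single c' (1 : k))) c
    rw [Finset.sum_apply] at h2
    have h3 : ∀ i, (b.repr (Pi.single c' 1) i • b i) c = b i c * b.repr (Pi.single c' 1) i := by
      intro i
      rw [Pi.smul_apply, smul_eq_mul, mul_comm]
    simp only [h3] at h2
    rw [h2, Pi.single_apply]
    simp only [eq_comm]
  unfold Co
  simp only [Finset.smul_sum, smul_smul]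
  rw [Finset.sum_comm]
  simp only [← Finset.sum_smul, h1]
  simp

theorem Co_eq {W : Type u} [AddCommGroup W] [Module k W] {w : Fin q → W} {X : I → W}
    (h : ∀ c, w c = ∑ i, b i c • X i) (i : I) : Co b w i = X i := by
  have h1 : ∀ i', ∑ c, b.repr (Pi.single c 1) i * b i' c = if i' = i then 1 else 0 := by
    intro i'
    have h2 : b.repr (b i') i = ∑ c, b.repr (Pi.single c 1) i * b i' c := by
      conv_lhs => rw [pi_eq_sum_univ' (b i')]
      rw [map_sum, Finsupp.finsetSum_apply]
      refine Finset.sum_congr rfl fun c _ => ?_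
      rw [map_smul, Finsupp.smul_apply, smul_eq_mul, mul_comm]
    rw [← h2, b.repr_self, Finsupp.single_apply]
  unfold Co
  simp only [h, Finset.smul_sum, smul_smul]
  rw [Finset.sum_comm]
  simp only [← Finset.sum_smul, h1]
  simp

end coords

/-! ### Vectors of length seven -/

section rel

variable {k : Type u} [Field k] {V : Type u} [AddCommGroup V] [Module k V]
  {R : Submodule k (Fin 7 → V)}

theorem vec7 {ν : Type} [Fintype ν] (w₀ w₁ w₂ w₃ w₄ w₅ w₆ : ν → k) (x : V) (y : ν → V) :
    (fun i : Fin 7 => (0 : k) • x + ∑ j, (![w₀, w₁, w₂, w₃, w₄, w₅, w₆] : Fin 7 → ν → k) i j • y j) =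
      ![Fintype.linearCombination k y w₀, Fintype.linearCombination k y w₁,
        Fintype.linearCombination k y w₂, Fintype.linearCombination k y w₃,
        Fintype.linearCombination k y w₄, Fintype.linearCombination k y w₅,
        Fintype.linearCombination k y w₆] := by
  funext i
  fin_cases i <;> simp [Fintype.linearCombination_apply]

theorem W_add {u v u' v' : V} (h : ![0, 0, u, v, 0, 0, 0] ∈ R)
    (h' : ![0, 0, u', v', 0, 0, 0] ∈ R) : ![0, 0, u + u', v + v', 0, 0, 0] ∈ R := by
  have := add_mem h h'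
  convert this using 1
  funext i
  fin_cases i <;> simp

theorem W_smul (t : k) {u v : V} (h : ![0, 0, u, v, 0, 0, 0] ∈ R) :
    ![0, 0, t • u, t • v, 0, 0, 0] ∈ R := by
  have := R.smul_mem t h
  convert this using 1
  funext i
  fin_cases i <;> simp

theorem W_zero : ![0, 0, (0 : V), 0, 0, 0, 0] ∈ R := by
  have := R.zero_mem
  convert this using 1
  funext i
  fin_cases i <;> simp

theorem W_sum {ι : Type} (s : Finset ι) (t : ι → k) (u v : ι → V)
    (h : ∀ i ∈ s, ![0, 0, u i, v i, 0, 0, 0] ∈ R) :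
    ![0, 0, ∑ i ∈ s, t i • u i, ∑ i ∈ s, t i • v i, 0, 0, 0] ∈ R := by
  classical
  induction s using Finset.induction_on with
  | empty => simpa using W_zero
  | insert a s ha ih =>
    rw [Finset.sum_insert ha, Finset.sum_insert ha]
    exact W_add (W_smul _ (h a (Finset.mem_insert_self _ _)))
      (ih fun i hi => h i (Finset.mem_insert_of_mem hi))

theorem G_add {y u v y' u' v' : V} (h : ![0, 0, 0, 0, y, u, v] ∈ R)
    (h' : ![0, 0, 0, 0, y', u', v'] ∈ R) : ![0, 0, 0, 0, y + y', u + u', v + v'] ∈ R := by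
  have := add_mem h h'
  convert this using 1
  funext i
  fin_cases i <;> simp

theorem G_smul (t : k) {y u v : V} (h : ![0, 0, 0, 0, y, u, v] ∈ R) :
    ![0, 0, 0, 0, t • y, t • u, t • v] ∈ R := by
  have := R.smul_mem t h
  convert this using 1
  funext i
  fin_cases i <;> simp

theorem G_sub {y u v y' u' v' : V} (h : ![0, 0, 0, 0, y, u, v] ∈ R)
    (h' : ![0, 0, 0, 0, y', u', v'] ∈ R) : ![0, 0, 0, 0, y - y', u - u', v - v'] ∈ R := by
  have := sub_mem h h'
  convert this using 1
  funext i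
  fin_cases i <;> simp

theorem D_sub {y u y' u' : V} (h : ![y, u, 0, 0, 0, 0, 0] ∈ R)
    (h' : ![y', u', 0, 0, 0, 0, 0] ∈ R) : ![y - y', u - u', 0, 0, 0, 0, 0] ∈ R := by
  have := sub_mem h h'
  convert this using 1
  funext i
  fin_cases i <;> simp

end rel

theorem rsm {k : Type u} [Field k] {α β : k} {V : Type u} [AddCommGroup V] [Module k V]
    {M : Type u} [AddCommGroup M] [Module k M] [Module (QuadraticAlgebra k α β) M]
    [IsScalarTower k (QuadraticAlgebra k α β) M] (T : M →ₗ[k] V)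
    (ζ : QuadraticAlgebra k α β) (z : M) :
    T (ζ • z) = ζ.re • T z + ζ.im • T ((ω : QuadraticAlgebra k α β) • z) := by
  have e1 : ζ = ζ.re • (1 : QuadraticAlgebra k α β) + ζ.im • (ω : QuadraticAlgebra k α β) := by
    ext <;> simp
  have h : ζ • z = ζ.re • z + ζ.im • ((ω : QuadraticAlgebra k α β) • z) := by
    conv_lhs => rw [e1]
    rw [add_smul, smul_assoc, smul_assoc, one_smul]
  rw [h, map_add, map_smul, map_smul]

/-! ### The condition -/

section main

variable {k : Type u} [Field k] {α β : k} {q A B n₁ n₂ n₃ : ℕ}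

/-- The index set of the basis. -/
abbrev II (n₁ n₂ n₃ : ℕ) : Type := Fin n₁ ⊕ ((Fin n₂ ⊕ Fin n₂) ⊕ Fin n₃)

/-- The index set of the bound variables. -/
abbrev NN (A B : ℕ) : Type := Fin A ⊕ (Fin B ⊕ Fin B)

/-- The coefficients of the value at `m`. -/
noncomputable def cf (g : Fin A → IA 2 q → k) (d : Fin B → ID 2 q → QuadraticAlgebra k α β)
    (m : IA 2 q) : NN A B → k :=
  Sum.elim (fun j => g j m)
    (Sum.elim (fun l => (d l (Sum.inl m)).re) (fun l => (d l (Sum.inl m)).im))

/-- The coefficients of the last parameters. -/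
noncomputable def ck (d : Fin B → ID 2 q → QuadraticAlgebra k α β) (c : Fin q) : NN A B → k :=
  Sum.elim (fun _ => 0)
    (Sum.elim (fun l => (d l (Sum.inr c)).re) (fun l => (d l (Sum.inr c)).im))

variable (g : Fin A → IA 2 q → k) (d : Fin B → ID 2 q → QuadraticAlgebra k α β)
  (b : Module.Basis (II n₁ n₂ n₃) k (Fin q → k))

/-- The condition `φ`. -/
noncomputable def phi : RF k 7 :=
  RF.mk' (ν := NN A B) (σ := Unit) (θ := Fin B ⊕ (Fin n₃ ⊕ Fin n₂))
    (fun _ => 1) (fun _ => -cf g d (Sum.inl ())) (fun _ _ => 0)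
    (Sum.elim (fun l => ![Pi.single (Sum.inr (Sum.inl l)) 1, Pi.single (Sum.inr (Sum.inr l)) 1,
        0, 0, 0, 0, 0])
      (Sum.elim (fun j => ![0, 0, Co b (fun c => cf g d (Sum.inr (0, c))) (Sum.inr (Sum.inr j)),
          Co b (fun c => cf g d (Sum.inr (1, c))) (Sum.inr (Sum.inr j)), 0, 0, 0])
        (fun j => ![0, 0, 0, 0, Co b (fun c => ck d c) (Sum.inr (Sum.inl (Sum.inl j))),
          Co b (fun c => cf g d (Sum.inr (0, c))) (Sum.inr (Sum.inl (Sum.inr j))) -
            β • Co b (fun c => cf g d (Sum.inr (0, c))) (Sum.inr (Sum.inl (Sum.inl j))) +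
            α • Co b (fun c => cf g d (Sum.inr (1, c))) (Sum.inr (Sum.inl (Sum.inl j))),
          Co b (fun c => cf g d (Sum.inr (1, c))) (Sum.inr (Sum.inl (Sum.inr j))) +
            Co b (fun c => cf g d (Sum.inr (0, c))) (Sum.inr (Sum.inl (Sum.inl j)))])))

theorem mem_phi {X : RS k 7} {v : X.V} : v ∈ (phi g d b).sol X ↔ ∃ y : NN A B → X.V,
    v = Fintype.linearCombination k y (cf g d (Sum.inl ())) ∧
    (∀ l, ![y (Sum.inr (Sum.inl l)), y (Sum.inr (Sum.inr l)), 0, 0, 0, 0, 0] ∈ X.Rel) ∧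
    (∀ j : Fin n₃, ![0, 0,
      Co b (fun c => Fintype.linearCombination k y (cf g d (Sum.inr (0, c))))
        (Sum.inr (Sum.inr j)),
      Co b (fun c => Fintype.linearCombination k y (cf g d (Sum.inr (1, c))))
        (Sum.inr (Sum.inr j)), 0, 0, 0] ∈ X.Rel) ∧
    ∀ j : Fin n₂, ![0, 0, 0, 0,
      Co b (fun c => Fintype.linearCombination k y (ck d c)) (Sum.inr (Sum.inl (Sum.inl j))),
      Co b (fun c => Fintype.linearCombination k y (cf g d (Sum.inr (0, c))))
          (Sum.inr (Sum.inl (Sum.inr j))) -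
        β • Co b (fun c => Fintype.linearCombination k y (cf g d (Sum.inr (0, c))))
          (Sum.inr (Sum.inl (Sum.inl j))) +
        α • Co b (fun c => Fintype.linearCombination k y (cf g d (Sum.inr (1, c))))
          (Sum.inr (Sum.inl (Sum.inl j))),
      Co b (fun c => Fintype.linearCombination k y (cf g d (Sum.inr (1, c))))
          (Sum.inr (Sum.inl (Sum.inr j))) +
        Co b (fun c => Fintype.linearCombination k y (cf g d (Sum.inr (0, c))))
          (Sum.inr (Sum.inl (Sum.inl j)))] ∈ X.Rel := by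
  unfold phi
  rw [RF.mem_mk']
  refine exists_congr fun y => and_congr ?_ ?_
  · constructor
    · intro h
      have h1 := h ()
      rw [one_smul] at h1
      rw [Fintype.linearCombination_apply]
      simp only [Pi.neg_apply, neg_smul, Finset.sum_neg_distrib] at h1
      rw [← sub_eq_add_neg, sub_eq_zero] at h1
      exact h1
    · rintro h _
      rw [one_smul]
      simp only [Pi.neg_apply, neg_smul, Finset.sum_neg_distrib]
      rw [← sub_eq_add_neg, sub_eq_zero, h, Fintype.linearCombination_apply]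
  · constructor
    · intro h
      refine ⟨fun l => ?_, fun j => ?_, fun j => ?_⟩
      · have h1 := h (Sum.inl l)
        simp only [Sum.elim_inl] at h1
        rw [vec7] at h1
        simpa [Fintype.linearCombination_apply] using h1
      · have h1 := h (Sum.inr (Sum.inl j))
        simp only [Sum.elim_inr, Sum.elim_inl] at h1
        rw [vec7] at h1
        simpa only [map_zero, Co_map] using h1
      · have h1 := h (Sum.inr (Sum.inr j))
        simp only [Sum.elim_inr] at h1
        rw [vec7] at h1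
        simpa only [map_zero, map_add, map_sub, map_smul, Co_map] using h1
    · rintro ⟨h1, h2, h3⟩ (l | (j | j))
      · have h := h1 l
        simp only [Sum.elim_inl]
        rw [vec7]
        simpa [Fintype.linearCombination_apply] using h
      · have h := h2 j
        simp only [Sum.elim_inr, Sum.elim_inl]
        rw [vec7]
        simpa only [map_zero, Co_map] using h
      · have h := h3 j
        simp only [Sum.elim_inr]
        rw [vec7]
        simpa only [map_zero, map_add, map_sub, map_smul, Co_map] using h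

/-- the value for tensors -/
theorem lc_cf {V : Type u} [AddCommGroup V] [Module k V] {M : Type u} [AddCommGroup M]
    [Module k M] [Module (QuadraticAlgebra k α β) M]
    [IsScalarTower k (QuadraticAlgebra k α β) M] (r : M →ₗ[k] V) (u : Fin A → V)
    (z : Fin B → M) (m : IA 2 q) :
    Fintype.linearCombination k (Sum.elim u (Sum.elim (fun l => r (z l))
      (fun l => r ((ω : QuadraticAlgebra k α β) • z l)))) (cf g d m) =
      ∑ j, g j m • u j + r (∑ l, d l (Sum.inl m) • z l) := by
  have e : ∀ l, r (d l (Sum.inl m) • z l) = (d l (Sum.inl m)).re • r (z l) +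
      (d l (Sum.inl m)).im • r ((ω : QuadraticAlgebra k α β) • z l) := fun l => rsm r _ _
  rw [Fintype.linearCombination_apply, Fintype.sum_sum_type, Fintype.sum_sum_type, map_sum,
    Finset.sum_congr rfl fun l _ => e l, Finset.sum_add_distrib]
  rfl

theorem lc_ck {V : Type u} [AddCommGroup V] [Module k V] {M : Type u} [AddCommGroup M]
    [Module k M] [Module (QuadraticAlgebra k α β) M]
    [IsScalarTower k (QuadraticAlgebra k α β) M] (r : M →ₗ[k] V) (u : Fin A → V)
    (z : Fin B → M) (c : Fin q) :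
    Fintype.linearCombination k (Sum.elim u (Sum.elim (fun l => r (z l))
      (fun l => r ((ω : QuadraticAlgebra k α β) • z l)))) (ck d c) =
      r (∑ l, d l (Sum.inr c) • z l) := by
  have e : ∀ l, r (d l (Sum.inr c) • z l) = (d l (Sum.inr c)).re • r (z l) +
      (d l (Sum.inr c)).im • r ((ω : QuadraticAlgebra k α β) • z l) := fun l => rsm r _ _
  rw [Fintype.linearCombination_apply, Fintype.sum_sum_type, Fintype.sum_sum_type, map_sum,
    Finset.sum_congr rfl fun l _ => e l, Finset.sum_add_distrib]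
  have e0 : ∑ x : Fin A, ck (A := A) d c (Sum.inl x) • (Sum.elim u (Sum.elim (fun l => r (z l))
      (fun l => r ((ω : QuadraticAlgebra k α β) • z l)))) (Sum.inl x) = 0 :=
    Finset.sum_eq_zero fun x _ => zero_smul _ _
  rw [e0, zero_add]
  rfl

/-- the coordinates of the last components of an element of `ED ⊗ M` -/
theorem Co_tens {M : Type u} [AddCommGroup M] [Module k M] [Module (QuadraticAlgebra k α β) M]
    [IsScalarTower k (QuadraticAlgebra k α β) M] (z : Fin B → M)
    (x : Fin B → II n₁ n₂ n₃ → QuadraticAlgebra k α β)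
    (hx : ∀ l c, d l (Sum.inr c) = ∑ i, x l i * algebraMap k (QuadraticAlgebra k α β) (b i c))
    (i : II n₁ n₂ n₃) :
    Co b (fun c => ∑ l, d l (Sum.inr c) • z l) i = ∑ l, x l i • z l := by
  refine Co_eq b (X := fun i => ∑ l, x l i • z l) (fun c => ?_) i
  simp only [hx, Finset.sum_smul, Finset.smul_sum]
  rw [Finset.sum_comm]
  refine Finset.sum_congr rfl fun i _ => Finset.sum_congr rfl fun l _ => ?_
  rw [mul_comm, mul_smul, algebraMap_smul]

/-- **Packet LAII.** -/
theorem goalLAII : GoalLAII.{u} := by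
  classical
  intro hNF k _ α β hirr q EA ED hi hii
  -- the basis
  set Ξ : Submodule (QuadraticAlgebra k α β) (Fin q → QuadraticAlgebra k α β) :=
    ED.map (LinearMap.funLeft _ _ (Sum.inr : Fin q → ID 2 q)) with hΞ
  have memΞ : ∀ κ : Fin q → QuadraticAlgebra k α β, κ ∈ Ξ ↔
      ∃ ε ∈ ED, ∀ c, ε (Sum.inr c) = κ c := by
    intro κ
    rw [hΞ, Submodule.mem_map]
    constructor
    · rintro ⟨ε, hε, rfl⟩
      exact ⟨ε, hε, fun c => rfl⟩
    · rintro ⟨ε, hε, h⟩
      exact ⟨ε, hε, funext h⟩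
  obtain ⟨n₁, n₂, n₃, b, hb⟩ := hNF k α β hirr q Ξ
  -- generators
  obtain ⟨A, g, hg⟩ := Submodule.fg_iff_exists_fin_generating_family.1
    (IsNoetherian.noetherian EA)
  have hNL : IsNoetherianRing (QuadraticAlgebra k α β) := isNoetherian_of_tower k inferInstance
  obtain ⟨B, d, hd⟩ := Submodule.fg_iff_exists_fin_generating_family.1
    (IsNoetherian.noetherian ED)
  have hdED : ∀ l, d l ∈ ED := fun l => by
    rw [← hd]
    exact Submodule.subset_span ⟨l, rfl⟩
  have hx : ∀ l, ∃ x : II n₁ n₂ n₃ → QuadraticAlgebra k α β,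
      (∀ c, d l (Sum.inr c) = ∑ i, x i * algebraMap k (QuadraticAlgebra k α β) (b i c)) ∧
      (∀ j, x (Sum.inr (Sum.inr j)) = 0) ∧
      ∀ j, x (Sum.inr (Sum.inl (Sum.inr j))) = ω * x (Sum.inr (Sum.inl (Sum.inl j))) :=
    fun l => (hb _).1 ((memΞ _).2 ⟨d l, hdED l, fun c => rfl⟩)
  choose x hx1 hx2 hx3 using hx
  -- the special elements
  have hspec : ∀ (s t : Fin q → k), (fun c => (⟨s c, t c⟩ : QuadraticAlgebra k α β)) ∈ Ξ →
      (Sum.elim (fun _ => 0) (fun p => if p.1 = 0 then -(α * t p.2) else s p.2) :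
        IA 2 q → k) ∈ EA ∧
      (Sum.elim (fun _ => 0) (fun p => if p.1 = 0 then -(s p.2 + β * t p.2) else t p.2) :
        IA 2 q → k) ∈ EA := by
    intro s t h
    obtain ⟨ε, hε, h1⟩ := (memΞ _).1 h
    have := hii ε hε
    simp only [h1] at this
    exact this
  have hS1 : ∀ a : Fin n₁, (fun c => (⟨b (Sum.inl a) c, 0⟩ : QuadraticAlgebra k α β)) ∈ Ξ := by
    intro a
    refine (hb _).2 ⟨Pi.single (Sum.inl a) 1, fun c => ?_,
      fun j => Pi.single_eq_of_ne (by simp) _, fun j => by
      rw [Pi.single_eq_of_ne (by simp), Pi.single_eq_of_ne (by simp), mul_zero]⟩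
    rw [Finset.sum_eq_single (Sum.inl a)]
    · rw [Pi.single_eq_same, one_mul]
      rfl
    · intro i _ hi
      rw [Pi.single_eq_of_ne hi, zero_mul]
    · intro h
      exact absurd (Finset.mem_univ _) h
  have hS2 : ∀ j : Fin n₂, (fun c => (⟨b (Sum.inr (Sum.inl (Sum.inl j))) c,
      b (Sum.inr (Sum.inl (Sum.inr j))) c⟩ : QuadraticAlgebra k α β)) ∈ Ξ := by
    intro j
    refine (hb _).2 ⟨fun i => (Pi.single (Sum.inr (Sum.inl (Sum.inl j))) 1 :
        II n₁ n₂ n₃ → QuadraticAlgebra k α β) i +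
      (Pi.single (Sum.inr (Sum.inl (Sum.inr j))) ω : II n₁ n₂ n₃ → QuadraticAlgebra k α β) i,
      fun c => ?_, fun j' => ?_, fun j' => ?_⟩
    · simp only [add_mul, Finset.sum_add_distrib]
      rw [Finset.sum_eq_single (Sum.inr (Sum.inl (Sum.inl j))),
        Finset.sum_eq_single (Sum.inr (Sum.inl (Sum.inr j)))]
      · rw [Pi.single_eq_same, Pi.single_eq_same, one_mul]
        ext <;> simp
      · intro i _ hi
        rw [Pi.single_eq_of_ne hi, zero_mul]
      · intro h
        exact absurd (Finset.mem_univ _) h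
      · intro i _ hi
        rw [Pi.single_eq_of_ne hi, zero_mul]
      · intro h
        exact absurd (Finset.mem_univ _) h
    · dsimp only
      rw [Pi.single_eq_of_ne (by simp), Pi.single_eq_of_ne (by simp), add_zero]
    · simp only [Pi.single_apply]
      by_cases h : j' = j
      · subst h
        simp
      · simp [h]
  refine ⟨phi g d b, ?_⟩
  intro X hX M _ _ _ _ r γ₀ γ₁ hr hran hγ v
  rw [mem_phi]
  constructor
  · -- from the condition to tensors
    rintro ⟨y, hv, hD, h3, hG⟩
    have hz : ∀ l, ∃ z : M, r z = y (Sum.inr (Sum.inl l)) := fun l => hran _ _ (hD l)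
    choose z hz using hz
    have hz' : ∀ l, r ((ω : QuadraticAlgebra k α β) • z l) = y (Sum.inr (Sum.inr l)) := by
      intro l
      have h1 := D_sub (hD l) (hr (z l))
      rw [hz l, sub_self] at h1
      exact (sub_eq_zero.1 (hX.d2 _ h1)).symm
    have hy : y = Sum.elim (fun j => y (Sum.inl j)) (Sum.elim (fun l => r (z l))
        (fun l => r ((ω : QuadraticAlgebra k α β) • z l))) := by
      funext i
      rcases i with i | (i | i)
      · rfl
      · exact (hz i).symm
      · exact (hz' i).symm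
    set u : Fin A → X.V := fun j => y (Sum.inl j) with hu
    set Q : ID 2 q → M := fun i => ∑ l, d l i • z l with hQ
    have hQm : Q ∈ tens (M := M) ED := (mem_tens hd).2 ⟨z, rfl⟩
    have hF : ∀ m : IA 2 q, Fintype.linearCombination k y (cf g d m) =
        ∑ j, g j m • u j + r (Q (Sum.inl m)) := by
      intro m
      rw [hy, lc_cf]
    have hK : ∀ c : Fin q, Fintype.linearCombination k y (ck d c) = r (Q (Sum.inr c)) := by
      intro c
      rw [hy, lc_ck]
    set F : IA 2 q → X.V := fun m => Fintype.linearCombination k y (cf g d m) with hFdef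
    have hQco : ∀ i, Co b (fun c => Q (Sum.inr c)) i = ∑ l, x l i • z l := fun i =>
      Co_tens d b z x hx1 i
    have hQ3 : ∀ j : Fin n₃, Co b (fun c => Q (Sum.inr c)) (Sum.inr (Sum.inr j)) = 0 := by
      intro j
      rw [hQco]
      simp only [hx2, zero_smul, Finset.sum_const_zero]
    have hQ2 : ∀ j : Fin n₂, Co b (fun c => Q (Sum.inr c)) (Sum.inr (Sum.inl (Sum.inr j))) =
        (ω : QuadraticAlgebra k α β) • Co b (fun c => Q (Sum.inr c))
          (Sum.inr (Sum.inl (Sum.inl j))) := by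
      intro j
      rw [hQco, hQco, Finset.smul_sum]
      simp only [hx3, mul_smul]
    set F0 : II n₁ n₂ n₃ → X.V := Co b (fun c => F (Sum.inr (0, c))) with hF0
    set F1 : II n₁ n₂ n₃ → X.V := Co b (fun c => F (Sum.inr (1, c))) with hF1
    set Z : II n₁ n₂ n₃ → M := Co b (fun c => Q (Sum.inr c)) with hZ
    -- the corrections
    have hU : ∀ j : Fin n₂, ∃ U : X.V × X.V,
        ![0, 0, F0 (Sum.inr (Sum.inl (Sum.inl j))) + U.1 -
            γ₀ (Z (Sum.inr (Sum.inl (Sum.inl j)))),
          F1 (Sum.inr (Sum.inl (Sum.inl j))) + U.2 -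
            γ₁ (Z (Sum.inr (Sum.inl (Sum.inl j)))), 0, 0, 0] ∈ X.Rel ∧
        ![0, 0, F0 (Sum.inr (Sum.inl (Sum.inr j))) + (β • U.1 - α • U.2) -
            γ₀ (Z (Sum.inr (Sum.inl (Sum.inr j)))),
          F1 (Sum.inr (Sum.inl (Sum.inr j))) + -U.1 -
            γ₁ (Z (Sum.inr (Sum.inl (Sum.inr j)))), 0, 0, 0] ∈ X.Rel := by
      intro j
      have h1 := hG j
      have e1 : Co b (fun c => Fintype.linearCombination k y (ck d c))
          (Sum.inr (Sum.inl (Sum.inl j))) = r (Z (Sum.inr (Sum.inl (Sum.inl j)))) := by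
        rw [hZ, Co_map]
        simp only [hK]
      rw [e1] at h1
      have h2 := G_sub h1 (hγ (Z (Sum.inr (Sum.inl (Sum.inl j)))))
      rw [sub_self] at h2
      obtain ⟨u₁, v₁, u₂, v₂, hw1, hw2, e2, e3⟩ := hX.g4 _ _ h2
      rw [← hQ2] at e2 e3
      refine ⟨(-F0 (Sum.inr (Sum.inl (Sum.inl j))) + γ₀ (Z (Sum.inr (Sum.inl (Sum.inl j)))) + u₂,
        -F1 (Sum.inr (Sum.inl (Sum.inl j))) + γ₁ (Z (Sum.inr (Sum.inl (Sum.inl j)))) + v₂),
        ?_, ?_⟩
      · have e4 : F0 (Sum.inr (Sum.inl (Sum.inl j))) + (-F0 (Sum.inr (Sum.inl (Sum.inl j))) +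
            γ₀ (Z (Sum.inr (Sum.inl (Sum.inl j)))) + u₂) -
            γ₀ (Z (Sum.inr (Sum.inl (Sum.inl j)))) = u₂ := by abel
        have e5 : F1 (Sum.inr (Sum.inl (Sum.inl j))) + (-F1 (Sum.inr (Sum.inl (Sum.inl j))) +
            γ₁ (Z (Sum.inr (Sum.inl (Sum.inl j)))) + v₂) -
            γ₁ (Z (Sum.inr (Sum.inl (Sum.inl j)))) = v₂ := by abel
        simp only [e4, e5]
        exact hw2
      · have h3 := W_add hw1 (W_smul β hw2)
        have e4 : F0 (Sum.inr (Sum.inl (Sum.inr j))) + (β • (-F0 (Sum.inr (Sum.inl (Sum.inl j))) +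
            γ₀ (Z (Sum.inr (Sum.inl (Sum.inl j)))) + u₂) -
            α • (-F1 (Sum.inr (Sum.inl (Sum.inl j))) + γ₁ (Z (Sum.inr (Sum.inl (Sum.inl j)))) +
              v₂)) - γ₀ (Z (Sum.inr (Sum.inl (Sum.inr j)))) = u₁ + β • u₂ := by
          linear_combination (norm := module) e2
        have e5 : F1 (Sum.inr (Sum.inl (Sum.inr j))) + -(-F0 (Sum.inr (Sum.inl (Sum.inl j))) +
            γ₀ (Z (Sum.inr (Sum.inl (Sum.inl j)))) + u₂) -
            γ₁ (Z (Sum.inr (Sum.inl (Sum.inr j)))) = v₁ + β • v₂ := by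
          linear_combination (norm := module) e3
        simp only [e4, e5]
        exact h3
    choose U hU1 hU2 using hU
    set s' : Fin n₁ ⊕ Fin n₂ → Fin q → k := Sum.elim (fun a c => b (Sum.inl a) c)
      (fun j c => b (Sum.inr (Sum.inl (Sum.inl j))) c) with hs'
    set t' : Fin n₁ ⊕ Fin n₂ → Fin q → k := Sum.elim (fun _ _ => 0)
      (fun j c => b (Sum.inr (Sum.inl (Sum.inr j))) c) with ht'
    have hst : ∀ σ, (fun c => (⟨s' σ c, t' σ c⟩ : QuadraticAlgebra k α β)) ∈ Ξ := by
      rintro (a | j)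
      · exact hS1 a
      · exact hS2 j
    set u0 : Fin n₁ ⊕ Fin n₂ → X.V := Sum.elim
      (fun a => -F0 (Sum.inl a) + γ₀ (Z (Sum.inl a))) (fun j => (U j).1) with hu0
    set u1 : Fin n₁ ⊕ Fin n₂ → X.V := Sum.elim
      (fun a => -F1 (Sum.inl a) + γ₁ (Z (Sum.inl a))) (fun j => (U j).2) with hu1
    set D0 : II n₁ n₂ n₃ → X.V := Sum.elim (fun a => -F0 (Sum.inl a) + γ₀ (Z (Sum.inl a)))
      (Sum.elim (Sum.elim (fun j => (U j).1) (fun j => β • (U j).1 - α • (U j).2))
        (fun _ => 0)) with hD0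
    set D1 : II n₁ n₂ n₃ → X.V := Sum.elim (fun a => -F1 (Sum.inl a) + γ₁ (Z (Sum.inl a)))
      (Sum.elim (Sum.elim (fun j => (U j).2) (fun j => -(U j).1)) (fun _ => 0)) with hD1
    set E1 : Fin n₁ ⊕ Fin n₂ → IA 2 q → k := fun σ =>
      Sum.elim (fun _ => 0) (fun p => if p.1 = 0 then -(α * t' σ p.2) else s' σ p.2) with hE1
    set E2 : Fin n₁ ⊕ Fin n₂ → IA 2 q → k := fun σ =>
      Sum.elim (fun _ => 0) (fun p => if p.1 = 0 then -(s' σ p.2 + β * t' σ p.2) else t' σ p.2)
      with hE2
    set Δ : IA 2 q → X.V := fun m => ∑ σ, (E1 σ m • u1 σ - E2 σ m • u0 σ) with hΔ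
    have hΔm : Δ ∈ tens (M := X.V) EA := by
      have e : Δ = ∑ σ, ((fun m => E1 σ m • u1 σ) - (fun m => E2 σ m • u0 σ)) := by
        funext m
        rw [hΔ, Finset.sum_apply]
        rfl
      rw [e]
      refine Submodule.sum_mem _ fun σ _ => Submodule.sub_mem _ ?_ ?_
      · exact smul_mem_tens (hspec _ _ (hst σ)).1 _
      · exact smul_mem_tens (hspec _ _ (hst σ)).2 _
    have hΔx : Δ (Sum.inl ()) = 0 := by
      simp only [hΔ, hE1, hE2, Sum.elim_inl, zero_smul, sub_self, Finset.sum_const_zero]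
    have hΔ0 : ∀ c, Δ (Sum.inr (0, c)) = ∑ i, b i c • D0 i := by
      intro c
      simp only [hΔ, hE1, hE2, hs', ht', hu0, hu1, hD0, Sum.elim_inr, Sum.elim_inl, if_true,
        Fintype.sum_sum_type, Finset.sum_const_zero, smul_zero, add_zero]
      rw [← Finset.sum_add_distrib]
      congr 1
      · refine Finset.sum_congr rfl fun a _ => ?_
        module
      · refine Finset.sum_congr rfl fun a _ => ?_
        module
    have hΔ1 : ∀ c, Δ (Sum.inr (1, c)) = ∑ i, b i c • D1 i := by
      intro c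
      simp only [hΔ, hE1, hE2, hs', ht', hu0, hu1, hD1, Sum.elim_inr, Sum.elim_inl, 
        Fintype.sum_sum_type, Finset.sum_const_zero, smul_zero, add_zero, one_ne_zero, if_false]
      rw [← Finset.sum_add_distrib]
      congr 1
      · refine Finset.sum_congr rfl fun a _ => ?_
        module
      · refine Finset.sum_congr rfl fun a _ => ?_
        module
    refine ⟨(fun m => ∑ j, g j m • u j) + Δ, Submodule.add_mem _ ((mem_tens hg).2 ⟨u, rfl⟩) hΔm,
      Q, hQm, ?_, fun c => ?_⟩
    · rw [Pi.add_apply, hΔx, add_zero, hv, hF]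
    · -- recombination
      have e0 : ((fun m => ∑ j, g j m • u j) + Δ) (Sum.inr (0, c)) +
          r (Q (Sum.inl (Sum.inr (0, c)))) - γ₀ (Q (Sum.inr c)) =
          ∑ i, b i c • (F0 i + D0 i - γ₀ (Z i)) := by
        have e1 : F (Sum.inr (0, c)) = ∑ i, b i c • F0 i :=
          recomb b (fun c => F (Sum.inr (0, c))) c
        have e2 : γ₀ (Q (Sum.inr c)) = ∑ i, b i c • γ₀ (Z i) := by
          rw [recomb b (fun c => Q (Sum.inr c)) c, map_sum]
          simp only [map_smul]
          rfl
        rw [Pi.add_apply, hΔ0, e2]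
        simp only [smul_sub, smul_add, Finset.sum_sub_distrib, Finset.sum_add_distrib]
        rw [← e1]
        simp only [hFdef]
        rw [hF]
        abel
      have e1' : ((fun m => ∑ j, g j m • u j) + Δ) (Sum.inr (1, c)) +
          r (Q (Sum.inl (Sum.inr (1, c)))) - γ₁ (Q (Sum.inr c)) =
          ∑ i, b i c • (F1 i + D1 i - γ₁ (Z i)) := by
        have e1 : F (Sum.inr (1, c)) = ∑ i, b i c • F1 i :=
          recomb b (fun c => F (Sum.inr (1, c))) c
        have e2 : γ₁ (Q (Sum.inr c)) = ∑ i, b i c • γ₁ (Z i) := by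
          rw [recomb b (fun c => Q (Sum.inr c)) c, map_sum]
          simp only [map_smul]
          rfl
        rw [Pi.add_apply, hΔ1, e2]
        simp only [smul_sub, smul_add, Finset.sum_sub_distrib, Finset.sum_add_distrib]
        rw [← e1]
        simp only [hFdef]
        rw [hF]
        abel
      rw [e0, e1']
      refine W_sum _ _ _ _ fun i _ => ?_
      rcases i with a | ((j | j) | j)
      · simp only [hD0, hD1, Sum.elim_inl]
        have z0 : F0 (Sum.inl a) + (-F0 (Sum.inl a) + γ₀ (Z (Sum.inl a))) - γ₀ (Z (Sum.inl a)) =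
          0 := by abel
        have z1 : F1 (Sum.inl a) + (-F1 (Sum.inl a) + γ₁ (Z (Sum.inl a))) - γ₁ (Z (Sum.inl a)) =
          0 := by abel
        rw [z0, z1]
        exact W_zero
      · exact hU1 j
      · exact hU2 j
      · simp only [hD0, hD1, Sum.elim_inr]
        rw [hQ3, map_zero, map_zero, add_zero, add_zero, sub_zero, sub_zero]
        exact h3 j
  · -- from tensors to the condition
    rintro ⟨P, hP, Q, hQ, hv, hW⟩
    obtain ⟨u, rfl⟩ := (mem_tens hg).1 hP
    obtain ⟨z, rfl⟩ := (mem_tens hd).1 hQ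
    have hQco : ∀ i, Co b (fun c => ∑ l, d l (Sum.inr c) • z l) i = ∑ l, x l i • z l := fun i =>
      Co_tens d b z x hx1 i
    have hQ3 : ∀ j : Fin n₃, Co b (fun c => ∑ l, d l (Sum.inr c) • z l)
        (Sum.inr (Sum.inr j)) = 0 := by
      intro j
      rw [hQco]
      simp only [hx2, zero_smul, Finset.sum_const_zero]
    have hQ2 : ∀ j : Fin n₂, Co b (fun c => ∑ l, d l (Sum.inr c) • z l)
        (Sum.inr (Sum.inl (Sum.inr j))) =
        (ω : QuadraticAlgebra k α β) • Co b (fun c => ∑ l, d l (Sum.inr c) • z l)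
          (Sum.inr (Sum.inl (Sum.inl j))) := by
      intro j
      rw [hQco, hQco, Finset.smul_sum]
      simp only [hx3, mul_smul]
    have hco : ∀ i, ![0, 0, Co b (fun c => ∑ j, g j (Sum.inr (0, c)) • u j +
          r (∑ l, d l (Sum.inl (Sum.inr (0, c))) • z l)) i -
          γ₀ (Co b (fun c => ∑ l, d l (Sum.inr c) • z l) i),
        Co b (fun c => ∑ j, g j (Sum.inr (1, c)) • u j +
          r (∑ l, d l (Sum.inl (Sum.inr (1, c))) • z l)) i -
          γ₁ (Co b (fun c => ∑ l, d l (Sum.inr c) • z l) i), 0, 0, 0] ∈ X.Rel := by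
      intro i
      have h1 := W_sum Finset.univ (fun c => b.repr (Pi.single c 1) i) _ _ fun c _ => hW c
      rw [Co_map, Co_map]
      unfold Co
      rw [← Finset.sum_sub_distrib, ← Finset.sum_sub_distrib]
      simp only [← smul_sub]
      exact h1
    refine ⟨Sum.elim u (Sum.elim (fun l => r (z l))
      (fun l => r ((ω : QuadraticAlgebra k α β) • z l))), ?_, fun l => hr (z l), ?_, ?_⟩
    · rw [lc_cf, hv]
    · intro j
      simp only [lc_cf]
      have h1 := hco (Sum.inr (Sum.inr j))
      rw [hQ3 j, map_zero, map_zero, sub_zero, sub_zero] at h1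
      exact h1
    · intro j
      simp only [lc_cf, lc_ck]
      set F0 : II n₁ n₂ n₃ → X.V := Co b (fun c => ∑ i, g i (Sum.inr (0, c)) • u i +
        r (∑ l, d l (Sum.inl (Sum.inr (0, c))) • z l)) with hF0
      set F1 : II n₁ n₂ n₃ → X.V := Co b (fun c => ∑ i, g i (Sum.inr (1, c)) • u i +
        r (∑ l, d l (Sum.inl (Sum.inr (1, c))) • z l)) with hF1
      have h1 := hco (Sum.inr (Sum.inl (Sum.inl j)))
      have h2 := hco (Sum.inr (Sum.inl (Sum.inr j)))
      rw [hQ2 j] at h2
      have eZ : Co b (fun c => r (∑ l, d l (Sum.inr c) • z l)) (Sum.inr (Sum.inl (Sum.inl j))) =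
          r (Co b (fun c => ∑ l, d l (Sum.inr c) • z l) (Sum.inr (Sum.inl (Sum.inl j)))) :=
        (Co_map b r _ _).symm
      rw [eZ]
      set ζ : M := Co b (fun c => ∑ l, d l (Sum.inr c) • z l) (Sum.inr (Sum.inl (Sum.inl j)))
        with hζ
      have k1 := hX.g3 _ _ h1
      have k2 := hX.g3 _ _ h2
      obtain ⟨y', hy', hk⟩ := hX.g1 _ _ _ k1
      have hy0 : y' = 0 := hX.d2 _ hy'
      subst hy0
      have k3 := G_add (G_add (G_sub k2 (G_smul β k1)) hk) (hγ ζ)
      have e4 : (0 : X.V) - β • (0 : X.V) + 0 + r ζ = r ζ := by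
        rw [smul_zero, sub_zero, add_zero, zero_add]
      have e5 : F0 (Sum.inr (Sum.inl (Sum.inr j))) - γ₀ ((ω : QuadraticAlgebra k α β) • ζ) -
          β • (F0 (Sum.inr (Sum.inl (Sum.inl j))) - γ₀ ζ) +
          α • (F1 (Sum.inr (Sum.inl (Sum.inl j))) - γ₁ ζ) +
          (γ₀ ((ω : QuadraticAlgebra k α β) • ζ) - β • γ₀ ζ + α • γ₁ ζ) =
          F0 (Sum.inr (Sum.inl (Sum.inr j))) - β • F0 (Sum.inr (Sum.inl (Sum.inl j))) +
          α • F1 (Sum.inr (Sum.inl (Sum.inl j))) := by
        simp only [smul_sub]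
        abel
      have e6 : F1 (Sum.inr (Sum.inl (Sum.inr j))) - γ₁ ((ω : QuadraticAlgebra k α β) • ζ) -
          β • (F1 (Sum.inr (Sum.inl (Sum.inl j))) - γ₁ ζ) +
          (F0 (Sum.inr (Sum.inl (Sum.inl j))) - γ₀ ζ +
            β • (F1 (Sum.inr (Sum.inl (Sum.inl j))) - γ₁ ζ)) +
          (γ₁ ((ω : QuadraticAlgebra k α β) • ζ) + γ₀ ζ) =
          F1 (Sum.inr (Sum.inl (Sum.inr j))) + F0 (Sum.inr (Sum.inl (Sum.inl j))) := by
        simp only [smul_sub]
        abel
      rw [e4, e5, e6] at k3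
      exact k3

end main

end Pool.Agent.Helper77.CR
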