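import Pool.Agent.Helper88.CR.GoalsA

/-! # CH. Nonprincipal characters, pointwise and in mean square -/

set_option autoImplicit false

open Finset Filter Topology

open scoped Classical ArithmeticFunction

namespace Pool.Agent.Helper77.CR

open Pool.Agent.Helper88.CR

theorem summ (a : ℕ → ℂ) (ha : ∀ n, ‖a n‖ ≤ 1) (j : ℕ) {s : ℂ} (hs : 1 < s.re) :
    LSeriesSummable (gj a j) s := by
  obtain ⟨ε, hε0, hε⟩ : ∃ ε : ℝ, 0 < ε ∧ 1 + ε < s.re := ⟨(s.re - 1) / 2, by linarith, by linarith⟩
  refine LSeriesSummable_of_isBigO_rpow hε ?_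
  have h1 : (fun n : ℕ => Real.log n ^ (j : ℝ)) =O[atTop] fun n : ℕ => (n : ℝ) ^ ε :=
    (isLittleO_log_rpow_rpow_atTop (j : ℝ) hε0).isBigO.comp_tendsto tendsto_natCast_atTop_atTop
  have h2 : gj a j =O[atTop] fun n : ℕ => Real.log n ^ (j : ℝ) := by
    refine Asymptotics.IsBigO.of_bound 1 ?_
    filter_upwards with n
    rw [Real.rpow_natCast]
    unfold gj
    rw [norm_mul, Complex.norm_real, norm_div, one_mul]
    have h3 : (1 : ℝ) ≤ ‖(j.factorial : ℝ)‖ := by
      rw [Real.norm_eq_abs, abs_of_nonneg (by positivity)]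
      exact_mod_cast Nat.succ_le_of_lt (Nat.factorial_pos j)
    calc ‖a n‖ * (‖Real.log n ^ j‖ / ‖(j.factorial : ℝ)‖)
        ≤ 1 * (‖Real.log n ^ j‖ / 1) := by
          gcongr
          exact ha n
      _ = ‖Real.log n ^ j‖ := by rw [div_one, one_mul]
  have h3 : (fun n : ℕ => (n : ℝ) ^ (1 + ε - 1)) = fun n : ℕ => (n : ℝ) ^ ε := by
    funext n
    congr 1
    ring
  rw [h3]
  exact h2.trans h1

theorem norm_cu_le (z q a n : ℕ) : ‖cu z q a n‖ ≤ 1 := by
  unfold cu
  split_ifs <;> simp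

theorem norm_ch_le (z : ℕ) {q : ℕ} (χ : DirichletCharacter ℂ q) (n : ℕ) : ‖ch z χ n‖ ≤ 1 := by
  unfold ch
  split_ifs
  · exact χ.norm_le_one _
  · simp

theorem rg_one (z : ℕ) : rg z 1 := by
  refine ⟨one_ne_zero, fun p hp h => ?_⟩
  exact absurd (Nat.dvd_one.1 h) hp.ne_one

theorem ch_eq {q : ℕ} [NeZero q] (z : ℕ) (χ : DirichletCharacter ℂ q) (n : ℕ) :
    ch z χ n = (if n = 1 then 1 else 0) + ∑ a : ZMod q, χ a * cu z q a.val n := by
  have h1 : ∀ a : ZMod q, (n ≡ a.val [MOD q]) ↔ a = (n : ZMod q) := by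
    intro a
    rw [← ZMod.natCast_eq_natCast_iff, ZMod.natCast_zmod_val]
    exact eq_comm
  by_cases hr : rg z n
  · by_cases hn : n = 1
    · subst hn
      simp [ch, cu, hr]
    · have h2 : ∀ a : ZMod q, cu z q a.val n = if a = (n : ZMod q) then 1 else 0 := by
        intro a
        simp only [cu, h1, hr, hn, and_true, ne_eq, not_false_eq_true]
      simp only [h2, mul_ite, mul_one, mul_zero, Finset.sum_ite_eq', Finset.mem_univ, if_true,
        hn, if_false, zero_add, ch, hr]
  · have hn : n ≠ 1 := by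
      rintro rfl
      exact hr (rg_one z)
    simp [ch, cu, hr, hn]

theorem hasSum_one (j : ℕ) (s : ℂ) :
    HasSum (LSeries.term (gj (fun n => if n = 1 then 1 else 0) j) s) (if j = 0 then 1 else 0) := by
  have h1 := hasSum_single (f := LSeries.term (gj (fun n => if n = 1 then 1 else 0) j) s) 1
    (by
      intro n hn
      rcases Nat.eq_zero_or_pos n with h0 | h0
      · subst h0
        simp
      · rw [LSeries.term_of_ne_zero h0.ne']
        simp [gj, hn])
  have h2 : LSeries.term (gj (fun n => if n = 1 then 1 else 0) j) s 1 = if j = 0 then 1 else 0 := by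
    rw [LSeries.term_of_ne_zero one_ne_zero]
    unfold gj
    rcases Nat.eq_zero_or_pos j with h0 | h0
    · subst h0
      simp
    · simp [h0.ne']
  rw [h2] at h1
  exact h1

theorem LL_ch {q : ℕ} [NeZero q] (z : ℕ) (χ : DirichletCharacter ℂ q) (j : ℕ) {s : ℂ}
    (hs : 1 < s.re) : LL (ch z χ) j s - (if j = 0 then 1 else 0) =
      ∑ a : ZMod q, χ a * LL (cu z q a.val) j s := by
  have h1 : HasSum (fun n => ∑ a : ZMod q, χ a * LSeries.term (gj (cu z q a.val) j) s n)
      (∑ a : ZMod q, χ a * LL (cu z q a.val) j s) :=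
    hasSum_sum fun a _ => ((summ _ (norm_cu_le z q a.val) j hs).LSeriesHasSum).mul_left _
  have h2 := (hasSum_one j s).add h1
  have h3 : (fun n => LSeries.term (gj (fun n => if n = 1 then 1 else 0) j) s n +
      ∑ a : ZMod q, χ a * LSeries.term (gj (cu z q a.val) j) s n) =
      LSeries.term (gj (ch z χ) j) s := by
    funext n
    rcases Nat.eq_zero_or_pos n with h0 | h0
    · subst h0
      simp
    · simp only [LSeries.term_of_ne_zero h0.ne', gj, ch_eq z χ n]
      rw [add_mul, add_div, Finset.sum_mul, Finset.sum_div]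
      congr 1
      refine Finset.sum_congr rfl fun a _ => ?_
      ring
  rw [h3] at h2
  have h4 : LL (ch z χ) j s = _ := h2.tsum_eq
  rw [h4]
  ring

theorem conj_char {q : ℕ} [NeZero q] (χ : DirichletCharacter ℂ q) {b : ZMod q} (hb : IsUnit b) :
    (starRingEnd ℂ) (χ b) = χ b⁻¹ := by
  obtain ⟨u, rfl⟩ := hb
  have h1 : ‖χ (u : ZMod q)‖ = 1 := χ.unit_norm_eq_one u
  have h2 : χ (u : ZMod q) * (starRingEnd ℂ) (χ (u : ZMod q)) = 1 := by
    rw [Complex.mul_conj, Complex.normSq_eq_norm_sq, h1]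
    simp
  have h3 : χ (u : ZMod q) * χ ((u : ZMod q)⁻¹) = 1 := by
    rw [← map_mul, ZMod.mul_inv_of_unit _ u.isUnit, map_one]
  have h4 : χ (u : ZMod q) ≠ 0 := by
    intro h
    rw [h] at h2
    simp at h2
  exact mul_left_cancel₀ h4 (h2.trans h3.symm)

theorem parseval {q : ℕ} [NeZero q] (v : ZMod q → ℂ) (hv : ∀ a, ¬ IsUnit a → v a = 0) :
    ∑ χ : DirichletCharacter ℂ q, ‖∑ a, χ a * v a‖ ^ 2 = q.totient * ∑ a, ‖v a‖ ^ 2 := by
  have h1 : ∀ χ : DirichletCharacter ℂ q, ((‖∑ a, χ a * v a‖ ^ 2 : ℝ) : ℂ) =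
      ∑ a, ∑ b, v a * (starRingEnd ℂ) (v b) * (χ b⁻¹ * χ a) := by
    intro χ
    rw [← Complex.normSq_eq_norm_sq, ← Complex.mul_conj, map_sum, Finset.sum_mul_sum]
    refine Finset.sum_congr rfl fun a _ => Finset.sum_congr rfl fun b _ => ?_
    rw [map_mul]
    by_cases hb : IsUnit b
    · rw [conj_char χ hb]
      ring
    · rw [hv b hb]
      simp
  have h2 : ((∑ χ : DirichletCharacter ℂ q, ‖∑ a, χ a * v a‖ ^ 2 : ℝ) : ℂ) =
      ((q.totient * ∑ a, ‖v a‖ ^ 2 : ℝ) : ℂ) := by
    rw [Complex.ofReal_sum]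
    simp only [h1]
    rw [Finset.sum_comm]
    push_cast
    rw [Finset.mul_sum]
    refine Finset.sum_congr rfl fun a _ => ?_
    rw [Finset.sum_comm]
    have h3 : ∀ b : ZMod q, ∑ χ : DirichletCharacter ℂ q,
        v a * (starRingEnd ℂ) (v b) * (χ b⁻¹ * χ a) =
        if b = a then (q.totient : ℂ) * (v a * (starRingEnd ℂ) (v b)) else 0 := by
      intro b
      rw [← Finset.mul_sum]
      by_cases hb : IsUnit b
      · rw [DirichletCharacter.sum_char_inv_mul_char_eq ℂ hb a]
        split_ifs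
        · ring
        · ring
      · rw [hv b hb]
        simp
    simp only [h3]
    rw [Finset.sum_ite_eq' Finset.univ a]
    simp only [Finset.mem_univ, if_true]
    rw [Complex.mul_conj, Complex.normSq_eq_norm_sq]
    push_cast
    ring
  exact_mod_cast h2

theorem card_units (q : ℕ) [NeZero q] :
    ((univ : Finset (ZMod q)).filter IsUnit).card = q.totient := by
  have h1 : (univ : Finset (ZMod q)).filter IsUnit =
      (univ : Finset ((ZMod q)ˣ)).image (Units.val : (ZMod q)ˣ → ZMod q) := by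
    ext a
    simp only [Finset.mem_filter, Finset.mem_univ, true_and, Finset.mem_image]
    exact Iff.rfl
  rw [h1, Finset.card_image_of_injective _ Units.val_injective, Finset.card_univ,
    ZMod.card_units_eq_totient]

theorem ch (h : StmtSC) : StmtCH := by
  obtain ⟨K, hK1, hK⟩ := h
  refine ⟨K, hK1, ?_⟩
  intro z q _ hz hq s j hs1 hs2 hs3
  have hq1 : 1 ≤ q := Nat.one_le_iff_ne_zero.2 (NeZero.ne q)
  have hφ : (0 : ℝ) < q.totient := by
    exact_mod_cast Nat.totient_pos.2 hq1
  obtain ⟨A, hA⟩ : ∃ A : ℂ, A = ((Wz z / (Nat.totient q : ℝ) : ℝ) : ℂ) * LL (gz z) j s := ⟨_, rfl⟩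
  obtain ⟨v, hv⟩ : ∃ v : ZMod q → ℂ, v = fun a => if IsUnit a then LL (cu z q a.val) j s - A
      else 0 := ⟨_, rfl⟩
  obtain ⟨E, hE⟩ : ∃ E : ℝ, E = K / (Nat.totient q : ℝ) * (K * Real.log z) ^ j := ⟨_, rfl⟩
  have hlog : 0 ≤ Real.log z := Real.log_nonneg (by exact_mod_cast (show 1 ≤ z by omega))
  have hE0 : 0 ≤ E := by
    rw [hE]
    positivity
  have hv1 : ∀ a, IsUnit a → ‖v a‖ ≤ E := by
    intro a ha
    rw [hv]
    simp only [ha, if_true]
    rw [hA, hE]
    obtain ⟨u, rfl⟩ := ha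
    exact hK z q _ hz hq1 hq (ZMod.val_coe_unit_coprime u) s j hs1 hs2 hs3
  have hv0 : ∀ a, ¬ IsUnit a → v a = 0 := by
    intro a ha
    rw [hv]
    simp only [ha, if_false]
  have hF : ∀ χ : DirichletCharacter ℂ q, χ ≠ 1 →
      LL (Pool.Agent.Helper88.CR.ch z χ) j s - (if j = 0 then 1 else 0) = ∑ a, χ a * v a := by
    intro χ hχ
    rw [LL_ch z χ j hs1]
    have h1 : ∑ a : ZMod q, χ a * A = 0 := by
      rw [← Finset.sum_mul, MulChar.sum_eq_zero_of_ne_one hχ, zero_mul]
    rw [← sub_zero (∑ a : ZMod q, χ a * LL (cu z q a.val) j s), ← h1, ← Finset.sum_sub_distrib]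
    refine Finset.sum_congr rfl fun a _ => ?_
    by_cases ha : IsUnit a
    · rw [hv]
      simp only [ha, if_true]
      ring
    · rw [MulChar.map_nonunit χ ha]
      simp
  refine ⟨fun χ hχ => ?_, ?_⟩
  · rw [hF χ hχ]
    have h1 : ∀ a : ZMod q, ‖χ a * v a‖ ≤ if IsUnit a then E else 0 := by
      intro a
      by_cases ha : IsUnit a
      · simp only [ha, if_true]
        rw [norm_mul]
        calc ‖χ a‖ * ‖v a‖ ≤ 1 * E := by
              gcongr
              · exact χ.norm_le_one a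
              · exact hv1 a ha
          _ = E := one_mul E
      · simp only [ha, if_false]
        rw [hv0 a ha]
        simp
    calc ‖∑ a, χ a * v a‖ ≤ ∑ a : ZMod q, if IsUnit a then E else 0 :=
          (norm_sum_le _ _).trans (Finset.sum_le_sum fun a _ => h1 a)
      _ = q.totient * E := by
          rw [← Finset.sum_filter, Finset.sum_const, card_units, nsmul_eq_mul]
      _ = K * (K * Real.log z) ^ j := by
          rw [hE]
          field_simp
  · calc ∑ χ ∈ (univ : Finset (DirichletCharacter ℂ q)).filter (fun χ => χ ≠ 1),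
        ‖LL (Pool.Agent.Helper88.CR.ch z χ) j s - (if j = 0 then 1 else 0)‖ ^ 2
        = ∑ χ ∈ (univ : Finset (DirichletCharacter ℂ q)).filter (fun χ => χ ≠ 1),
          ‖∑ a, χ a * v a‖ ^ 2 := by
          refine Finset.sum_congr rfl fun χ hχ => ?_
          rw [hF χ (Finset.mem_filter.1 hχ).2]
      _ ≤ ∑ χ : DirichletCharacter ℂ q, ‖∑ a, χ a * v a‖ ^ 2 :=
          Finset.sum_le_sum_of_subset_of_nonneg (Finset.filter_subset _ _)
            fun _ _ _ => by positivity
      _ = q.totient * ∑ a, ‖v a‖ ^ 2 := parseval v hv0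
      _ ≤ q.totient * ∑ a : ZMod q, (if IsUnit a then E ^ 2 else 0) := by
          gcongr with a
          by_cases ha : IsUnit a
          · simp only [ha, if_true]
            gcongr
            exact hv1 a ha
          · simp only [ha, if_false]
            rw [hv0 a ha]
            simp
      _ = q.totient * (q.totient * E ^ 2) := by
          rw [← Finset.sum_filter, Finset.sum_const, card_units, nsmul_eq_mul]
      _ = K ^ 2 * (K * Real.log z) ^ (2 * j) := by
          rw [hE, pow_mul']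
          field_simp

end Pool.Agent.Helper77.CR
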